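import Mathlib
import Pool.Agent.Q290.Schur.MinkD

/-!
# The analytic rank is attained in bounded degree

`E` is an elliptic curve over a number field `K` and `M / K` a Galois extension with group `G` such
that `E` is automorphic over `M`. (If `K` is totally real or CM, every `E / K` has such an `M`.)
`Pool.Agent.H541R3.ART.Irr G` is the set of irreducible complex characters of `G`.

`Pool.Agent.Q7.SZ.TwistData G 1` is a family of functions with the known formal properties of the
twisted L-functions of `E` near `s = 1`: `L χ` (for `L(E ⊗ χ, s)`), meromorphic and not identically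
zero (Brauer), and `Lin H ψ` (for `L(E / M ^ H ⊗ ψ, s)`, `ψ` a linear character of a subgroup `H`),
without pole at `1` if `H` is solvable (solvable base change), which are the products of the
`L χ ^ ⟨χ|_H, ψ⟩` (induction). In particular `Lin H 1` stands for `L(E / M ^ H, s)` and `Lin ⊥ 1`
for `L(E / M, s)`. `Pool.Agent.Q7.SZ.FunEq A` are the functional equations, with root number one for
symplectic characters (Rohrlich).

`Pool.Agent.Q290.Schur.pwL k ψ` is the character `h ↦ (ψ h) ^ k`; for `k` prime to the order of a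
cyclic group these are the Galois conjugates of the linear character `ψ` of this group.

`Pool.Agent.Q7.SZ.rk ρ H` is the dimension of the `H`-invariants of the representation `ρ`; this is
the rank of `E(M ^ H)` if `ρ` is the representation of `G` on `E(M) ⊗ ℚ`.
`Pool.Agent.Q7.SZ.RankHolds A ρ H` says that the order of `Lin H 1` at `1` is `rk ρ H`.
-/

set_option autoImplicit false
set_option linter.unusedSectionVars false

open Pool.Agent.H302R2 Pool.Agent.H302R3 Pool.Agent.H541R3.ART Pool.Agent.W446.AS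
  Pool.Agent.H302R5 Pool.Agent.Q7.TZ Pool.Agent.Q7.SZ Pool.Agent.Q7.GR Pool.Agent.Q290.Schur

/-- Let `r` be the order of `L(E / M, s)` at `s = 1`. Suppose

* (`hol`) that `r ≤ 2`, or that `r = 3` and `G` is solvable, or that no `L(E ⊗ χ, s)` has a pole at
  `s = 1`;
* (`hsh`) that `r ≤ 5` and for the cyclic extensions `M / M ^ g` the nonvanishing of
  `L(E / M ^ g ⊗ ψ, 1)` depends only on the Galois orbit of `ψ` (known: Shimura, Hida), or (then `r`
  is arbitrary) that the order of these functions at `1` depends only on the Galois orbit of `ψ`.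

Then there is a smallest field `M₀ = M ^ N` between `K` and `M` over which the L-function of `E` has
order `r` at `1`; it is Galois over `K`, its degree over `K` divides Schur's number of `r` (that is
`1, 2, 24, 48, 5760, 11520` for `r = 0, 1, 2, 3, 4, 5`), and is at most `12` if `r = 2`; over any
field `F` between `K` and `M` the order at `1` is the one over `F ∩ M₀`; and for all `χ` and all
linear characters of subgroups which are not trivial on `N` the L-function does not vanish at `1`.
Hence the inequality `order ≤ rank` for the fields between `K` and `M₀` implies the same for all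
fields between `K` and `M`, and for equality one needs in addition only equality for `M`. -/
theorem Pool.Agent.Q290.RL.mink_core
    (G : Type) [Group G] [Finite G] (A : TwistData G 1) (F : FunEq A) (r : ℕ)
    (hr : meromorphicOrderAt (A.Lin ⊥ 1) 1 = (r : WithTop ℤ))
    (hol : r ≤ 2 ∨ (r = 3 ∧ Group.IsSolvable G) ∨ ∀ χ ∈ Irr G, 0 ≤ meromorphicOrderAt (A.L χ) 1)
    (hsh : (r ≤ 5 ∧ ∀ (g : G) (ψ : Subgroup.zpowers g →* ℂˣ) (k : ℕ), k.Coprime (orderOf g) →
        (meromorphicOrderAt (A.Lin (Subgroup.zpowers g) ψ) 1 = 0 ↔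
          meromorphicOrderAt (A.Lin (Subgroup.zpowers g) (pwL k ψ)) 1 = 0)) ∨
      ∀ (g : G) (ψ : Subgroup.zpowers g →* ℂˣ) (k : ℕ), k.Coprime (orderOf g) →
        meromorphicOrderAt (A.Lin (Subgroup.zpowers g) (pwL k ψ)) 1 =
          meromorphicOrderAt (A.Lin (Subgroup.zpowers g) ψ) 1) :
    ∃ N : Subgroup G, N.Normal ∧
      -- the degree of `M₀ / K`
      (∀ p : ℕ, p.Prime → N.index.factorization p ≤
        (r + r / (p - 1)).factorial.factorization p) ∧
      (r ≤ 5 → N.index ∣ [1, 2, 24, 48, 5760, 11520].getD r 0) ∧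
      (r = 2 → N.index ≤ 12) ∧
      -- `M₀` is the smallest field with order `r`
      (∀ H : Subgroup G, meromorphicOrderAt (A.Lin H 1) 1 = (r : WithTop ℤ) ↔ H ≤ N) ∧
      -- the other fields
      (∀ H : Subgroup G,
        meromorphicOrderAt (A.Lin H 1) 1 = meromorphicOrderAt (A.Lin (H ⊔ N) 1) 1) ∧
      -- nonvanishing
      (∀ χ ∈ Irr G, (∃ x ∈ N, χ x ≠ χ 1) → meromorphicOrderAt (A.L χ) 1 = 0) ∧
      (∀ (H : Subgroup G) (ψ : H →* ℂˣ), (∃ x : H, (x : G) ∈ N ∧ ψ x ≠ 1) →
        meromorphicOrderAt (A.Lin H ψ) 1 = 0) ∧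
      -- the conjecture of Birch and Swinnerton-Dyer
      (∀ {k : Type} [Field k] [CharZero k] {V : Type} [AddCommGroup V] [Module k V]
        [FiniteDimensional k V] (ρ : Representation k G V),
        ((∀ H, N ≤ H → meromorphicOrderAt (A.Lin H 1) 1 ≤ ((rk ρ H : ℤ) : WithTop ℤ)) →
          ∀ H, meromorphicOrderAt (A.Lin H 1) 1 ≤ ((rk ρ H : ℤ) : WithTop ℤ)) ∧
        ((∀ H, RankHolds A ρ H) ↔ RankHolds A ρ ⊥ ∧ ∀ H, N ≤ H → RankHolds A ρ H)) := by
  classical
  have : Fintype G := Fintype.ofFinite G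
  have h1 := A.theta_one hr
  have hn : ∀ χ ∈ Irr G, 0 ≤ A.ord χ := by
    rcases hol with h | h | h
    · exact ord_nonneg F hr (Or.inl h)
    · exact ord_nonneg F hr (Or.inr h)
    · intro χ hχ
      have h2 := h χ hχ
      rw [← A.coe_ord hχ] at h2
      exact_mod_cast h2
  have hpow : ∀ (g : G) (k : ℕ), k.Coprime (orderOf g) →
      (theta A.ord : G → ℂ) (g ^ k) = theta A.ord g := by
    intro g k hk
    rcases hsh with ⟨hr5, h⟩ | h
    · exact theta_pow_of hk (theta_pow F hr5 hr hk (fun ψ => h g ψ k hk))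
    · exact theta_pow_of hk (fun ψ => h g ψ k hk)
  have hpart : ∀ p : ℕ, p.Prime → (KerS (theta A.ord : G → ℂ)).index.factorization p ≤
      (r + r / (p - 1)).factorial.factorization p :=
    fun p hp => schur_part hn A.isSol h1 hpow hp
  have hsup := A.order_sup (N := KerS (theta A.ord : G → ℂ)) A.kerS_triv
  refine ⟨KerS (theta A.ord : G → ℂ), inferInstance, hpart, fun hr5 => schur_small hr5 hpart,
    fun h2 => ?_, fun H => ⟨fun h => ?_, fun h => ?_⟩, fun H => (hsup H).symm, fun χ hχ h => ?_,
    fun H ψ h => ?_, ?_⟩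
  · subst h2
    exact index_two F hr hpow
  · obtain ⟨k, hk1, hk2⟩ := A.order_one' H
    rw [h] at hk1
    have hk : k = (r : ℤ) := by
      have h2 : ((r : ℤ) : WithTop ℤ) = (k : WithTop ℤ) := hk1
      exact (WithTop.coe_injective h2).symm
    rw [hk] at hk2
    have h3 := const_of_sum A.isSol h1 H (by rw [hk2]; push_cast; rfl)
    exact fun x hx => mem_ker_of_eq hn (h3 x hx)
  · have h3 := hsup H
    have h4 := hsup ⊥
    rw [bot_sup_eq] at h4
    rw [sup_eq_right.mpr h] at h3
    rw [← h3, h4, hr]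
  · obtain ⟨x, hx, hne⟩ := h
    by_contra hcon
    apply hne
    refine A.kerS_triv χ hχ (fun h0 => hcon ?_) x hx
    rw [← A.coe_ord hχ, h0]
    rfl
  · obtain ⟨x, hx, hne⟩ := h
    obtain ⟨k, hk1, hk2⟩ := A.order_mult H ψ
    rw [hk1]
    have : Fintype H := Fintype.ofFinite H
    rw [finsum_eq_sum_of_fintype] at hk2
    have h2 : ∑ h : H, (theta A.ord : G → ℂ) h * (((ψ h)⁻¹ : ℂˣ) : ℂ) =
        (((ψ x)⁻¹ : ℂˣ) : ℂ) * ∑ h : H, (theta A.ord : G → ℂ) h * (((ψ h)⁻¹ : ℂˣ) : ℂ) := by
      conv_lhs => rw [← Equiv.sum_comp (Equiv.mulRight x)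
        (fun h : H => (theta A.ord : G → ℂ) h * (((ψ h)⁻¹ : ℂˣ) : ℂ))]
      rw [Finset.mul_sum]
      refine Finset.sum_congr rfl fun h _ => ?_
      rw [Equiv.coe_mulRight, Subgroup.coe_mul, theta_kerS (theta_virt _) _ hx, map_mul,
        mul_inv_rev, Units.val_mul]
      ring
    have h3 : (((ψ x)⁻¹ : ℂˣ) : ℂ) ≠ 1 := by
      intro h
      apply hne
      rw [← inv_eq_one, ← Units.val_eq_one]
      exact h
    have h4 : (1 - (((ψ x)⁻¹ : ℂˣ) : ℂ)) *
        ∑ h : H, (theta A.ord : G → ℂ) h * (((ψ h)⁻¹ : ℂˣ) : ℂ) = 0 := by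
      linear_combination h2
    have h5 : ∑ h : H, (theta A.ord : G → ℂ) h * (((ψ h)⁻¹ : ℂˣ) : ℂ) = 0 := by
      rcases mul_eq_zero.mp h4 with h | h
      · exact absurd (sub_eq_zero.mp h).symm h3
      · exact h
    rw [h5] at hk2
    have h6 : (Nat.card H : ℂ) ≠ 0 := by exact_mod_cast Nat.card_pos.ne'
    have h7 : (k : ℂ) = 0 := by
      rcases mul_eq_zero.mp hk2.symm with h | h
      · exact h
      · exact absurd h h6
    have h8 : k = 0 := by exact_mod_cast h7
    rw [h8]
    rfl
  · intro k _ _ V _ _ _ ρ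
    refine ⟨fun h H => ?_, rank_reduction A ρ A.kerS_triv⟩
    rw [← hsup H]
    refine (h _ le_sup_right).trans ?_
    have h2 : rk ρ (H ⊔ KerS (theta A.ord : G → ℂ)) ≤ rk ρ H := rk_mono ρ le_sup_left
    exact_mod_cast h2
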