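import Mathlib
import Pool.Agent.Q290.Schur.TwReal

/-!
# Bounds and patterns for the orders of Artin twists at a real point

`G` is the Galois group, `n χ` the order of `L(E ⊗ χ, s)` at a real point, for the irreducible
characters `χ` of `G`, and `r` the order of `L(E/M, s)`.
-/

set_option autoImplicit false

namespace Pool.Agent.Q290.RL

open Pool.Agent.H541R3.ART Pool.Agent.Q7.TZ Pool.Agent.Q290.Schur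

variable {G : Type} [Group G]

/-- The linear character `μ` as a function on the group. -/
def lin (μ : G →* ℂˣ) (g : G) : ℂ := ((μ g : ℂˣ) : ℂ)

/-- With the Frobenius-Schur indicators `ν` and `T = ∑ ν χ n χ`, `2 ∑ (n χ)² ≤ r (r + T)` and
`T ≤ r`. -/
def SumBound (r : ℕ) (n : (G → ℂ) → ℤ) : Prop :=
  ∀ ν : (G → ℂ) → ℤ, (∀ χ ∈ Irr G, ∑ᶠ g, χ (g ^ 2) = ν χ * Nat.card G) →
    2 * ∑ᶠ χ ∈ Irr G, n χ ^ 2 ≤ r * (r + ∑ᶠ χ ∈ Irr G, ν χ * n χ) ∧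
      ∑ᶠ χ ∈ Irr G, ν χ * n χ ≤ r

/-- All zeros and poles are those of one character `μ` with `μ ^ 2 = 1`, of order `r`. -/
def OneQuadratic (r : ℕ) (n : (G → ℂ) → ℤ) : Prop :=
  ∃ μ : G →* ℂˣ, μ * μ = 1 ∧ n (lin μ) = r ∧ ∀ χ ∈ Irr G, χ ≠ lin μ → n χ = 0

/-- `2 - r ≤ n χ ≤ r - 1` for orthogonal `χ`, `1 - r ≤ n χ ≤ r - 2` for symplectic `χ`, and
`2 (n χ)² < r (r - 1)` for all other `χ`. -/
def IndividualBound (r : ℕ) (n : (G → ℂ) → ℤ) : Prop :=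
  ∀ χ ∈ Irr G, (Ort χ → 2 - r ≤ n χ ∧ n χ ≤ r - 1) ∧ (Sy χ → 1 - r ≤ n χ ∧ n χ ≤ r - 2) ∧
    ((fun g => χ g⁻¹) ≠ χ → 2 * n χ ^ 2 < r * (r - 1))

/-- (b) `n ε = 0`, and at most three `n χ` are not `0`: `1` for orthogonal `χ`, `-1` for
symplectic `χ`. -/
def PatternB (n : (G → ℂ) → ℤ) (ε : G →* ℂˣ) : Prop :=
  n (lin ε) = 0 ∧ (∀ χ ∈ Irr G, Light n χ) ∧ {χ | χ ∈ Irr G ∧ n χ ≠ 0}.ncard ≤ 3

/-- (c) `n ε = 1`, `n μ = 2` for one `μ` with `μ ^ 2 = 1`, and all other `n χ` are `0`. -/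
def PatternC (n : (G → ℂ) → ℤ) (ε : G →* ℂˣ) : Prop :=
  n (lin ε) = 1 ∧ ∃ μ : G →* ℂˣ, μ ≠ ε ∧ μ * μ = 1 ∧ n (lin μ) = 2 ∧
    ∀ χ ∈ Irr G, χ ≠ lin ε → χ ≠ lin μ → n χ = 0

/-- (d) `n ε` is `1` or `2`, and there is one exceptional character `χ₀`, orthogonal with
`n χ₀ = -1` or symplectic with `n χ₀ = 1`, while for all other `χ` the number `n χ` is `0`, or `1`
and `χ` is orthogonal, or `-1` and `χ` is symplectic, at most `4 - n ε` of them not `0`. -/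
def PatternD (n : (G → ℂ) → ℤ) (ε : G →* ℂˣ) : Prop :=
  (n (lin ε) = 1 ∨ n (lin ε) = 2) ∧ ∃ χ₀ ∈ Irr G, χ₀ ≠ lin ε ∧
    ((Ort χ₀ ∧ n χ₀ = -1) ∨ (Sy χ₀ ∧ n χ₀ = 1)) ∧
    (∀ χ ∈ Irr G, χ ≠ lin ε → χ ≠ χ₀ → Light n χ) ∧
    n (lin ε) + {χ | χ ∈ Irr G ∧ χ ≠ lin ε ∧ χ ≠ χ₀ ∧ n χ ≠ 0}.ncard ≤ 4

/-- (e) `n ε` is `1` or `2`, and there is one exceptional pair of complex conjugate characters
`χ₀`, with equal `n χ₀`, `1` or `-1`, while for all other `χ` the number `n χ` is `0`, or `1`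
and `χ` is orthogonal, or `-1` and `χ` is symplectic, at most `3 - n ε` of them not `0`. -/
def PatternE (n : (G → ℂ) → ℤ) (ε : G →* ℂˣ) : Prop :=
  (n (lin ε) = 1 ∨ n (lin ε) = 2) ∧ ∃ χ₀ ∈ Irr G, (fun g => χ₀ g⁻¹) ≠ χ₀ ∧
    n (fun g => χ₀ g⁻¹) = n χ₀ ∧ (n χ₀ = 1 ∨ n χ₀ = -1) ∧
    (∀ χ ∈ Irr G, χ ≠ lin ε → χ ≠ χ₀ → χ ≠ (fun g => χ₀ g⁻¹) → Light n χ) ∧
    n (lin ε) + {χ | χ ∈ Irr G ∧ χ ≠ lin ε ∧ χ ≠ χ₀ ∧ χ ≠ (fun g => χ₀ g⁻¹) ∧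
      n χ ≠ 0}.ncard ≤ 3

end Pool.Agent.Q290.RL
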