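import Mathlib
import Pool.Agent.Q7.RL.Model
import Pool.Agent.Q290.Schur.RatD

/-!
# Orders of vanishing as multiplicities of a rational representation: definitions
-/

set_option autoImplicit false

namespace Pool.Agent.Q290.RL

open NumberField Pool.Agent.H541R3.ART Pool.Agent.Q7.SZ Pool.Agent.Q7.RL
  Pool.Agent.Q290.Schur Pool.Agent.Q92.RT

section
variable {K : Type} [Field K] [NumberField K] (M : Type) [Field M] [NumberField M] [Algebra K M]
  (W : WeierstrassCurve (𝓞 K))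

/-- For the cyclic extensions `M / M ^ g` the nonvanishing of `L(E / M ^ g ⊗ ψ, 1)` depends only on
the Galois orbit of `ψ` (Shimura, Hida). The conjugates of `ψ` are the `ψ ^ k` with `k` prime to the
order of `g`. -/
def OrbitInvariant : Prop :=
  ∀ (g : M ≃ₐ[K] M) (ψ : Subgroup.zpowers g →* ℂˣ) (k : ℕ), k.Coprime (orderOf g) →
    (HasOrder (twistedL M W (induced (Subgroup.zpowers g) ψ)) 1 0 ↔
      HasOrder (twistedL M W (induced (Subgroup.zpowers g) (pwL k ψ))) 1 0)

/-- The order of `L(E / M ^ H ⊗ ψ, s)` at `1` is the multiplicity of `ψ` in the restriction of `ρ`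
to `H`, for all linear characters `ψ` of subgroups `H`. -/
def LinearMultiplicities {V : Type} [AddCommGroup V] [Module ℚ V]
    (ρ : Representation ℚ (M ≃ₐ[K] M) V) : Prop :=
  ∀ (H : Subgroup (M ≃ₐ[K] M)) (ψ : H →* ℂˣ), ∃ m : ℕ,
    HasOrder (twistedL M W (induced H ψ)) 1 m ∧
    ∑ᶠ h : H, ((LinearMap.trace ℚ V (ρ h) : ℚ) : ℂ) * (((ψ h)⁻¹ : ℂˣ) : ℂ) = m * Nat.card H

end

section
variable {G : Type} [Group G]

/-- `n χ` is the multiplicity of `χ` in `V ⊗ ℂ` for all irreducible `χ`. -/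
def Multiplicities {V : Type} [AddCommGroup V] [Module ℚ V] (ρ : Representation ℚ G V)
    (n : (G → ℂ) → ℤ) : Prop :=
  ∀ χ ∈ Irr G, ∑ᶠ g : G, ((LinearMap.trace ℚ V (ρ g) : ℚ) : ℂ) * χ g⁻¹ = n χ * Nat.card G

/-- `m` divides the multiplicity of `χ` in every representation of `G` over the rational numbers. -/
def DividesMultiplicities (m : ℕ) (χ : G → ℂ) : Prop :=
  ∀ (U : Type) [AddCommGroup U] [Module ℚ U] [FiniteDimensional ℚ U] (σ : Representation ℚ G U),
    ∃ k : ℤ, ∑ᶠ g : G, ((LinearMap.trace ℚ U (σ g) : ℚ) : ℂ) * χ g⁻¹ =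
      ((m * k : ℤ) : ℂ) * (Nat.card G : ℂ)

end

end Pool.Agent.Q290.RL
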