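import Mathlib
import Pool.Agent.Q7.RL.Model
import Pool.Agent.Q290.Schur.TwReal

/-!
# Complex conjugation for the L-functions of an elliptic curve
-/

set_option autoImplicit false
set_option linter.unusedSectionVars false

namespace Pool.Agent.Q290.RL

open NumberField IsDedekindDomain Filter Topology ComplexConjugate Pool.Agent.Q5.BR
  Pool.Agent.H541R3.ART Pool.Agent.W446.AS Pool.Agent.Q92.RT Pool.Agent.Q7.SZ
  Pool.Agent.H341R2.EC Pool.Agent.W353.NF

theorem analyticAt_conj {g : ℂ → ℂ} {z : ℂ} (hg : AnalyticAt ℂ g (conj z)) :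
    AnalyticAt ℂ (fun s => conj (g (conj s))) z := by
  have hcont : Tendsto (fun s : ℂ => conj s) (𝓝 z) (𝓝 (conj z)) :=
    Complex.continuous_conj.tendsto z
  rw [Complex.analyticAt_iff_eventually_differentiableAt] at hg ⊢
  filter_upwards [hcont.eventually hg] with s h1
  have h2 := h1.conj_conj
  rwa [Complex.conj_conj] at h2

theorem meromorphicAt_conj {f : ℂ → ℂ} {z : ℂ} (hf : MeromorphicAt f (conj z)) :
    MeromorphicAt (fun s => conj (f (conj s))) z := by
  obtain ⟨n, hn⟩ := hf
  refine ⟨n, ?_⟩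
  have h := analyticAt_conj hn
  have e : (fun s => (s - z) ^ n • conj (f (conj s))) =
      fun s => conj ((fun t => (t - conj z) ^ n • f t) (conj s)) := by
    funext s
    simp only [smul_eq_mul, map_mul, map_pow, map_sub, Complex.conj_conj]
  rw [e]
  exact h

section
variable {K : Type} [Field K] [NumberField K] {M : Type} [Field M] [NumberField M] [Algebra K M]

theorem twistedL_conj (W : WeierstrassCurve (𝓞 K)) (φ : (M ≃ₐ[K] M) → ℂ) (s : ℂ) :
    twistedL M W (fun g => conj (φ g)) s = conj (twistedL M W φ (conj s)) := by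
  classical
  unfold twistedL
  rw [← Complex.exp_conj, Complex.conj_tsum]
  congr 1
  refine tsum_congr fun x => ?_
  unfold term
  split_ifs
  · rw [map_div₀, map_mul, map_mul, Complex.conj_natCast, map_intCast]
    congr 2
    have h1 : ((x.2 + 1 : ℕ) : ℂ) * conj s = conj (((x.2 + 1 : ℕ) : ℂ) * s) := by
      rw [map_mul, Complex.conj_natCast]
    rw [h1, Complex.cpow_conj _ _ (by
      rw [Complex.natCast_arg]
      exact Real.pi_ne_zero.symm), Complex.conj_conj, Complex.conj_natCast]
  · rw [map_zero]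

theorem continues_conj {W : WeierstrassCurve (𝓞 K)} {f : ℂ → ℂ} {φ : (M ≃ₐ[K] M) → ℂ}
    (h : Continues f (twistedL M W φ)) :
    Continues (fun s => conj (f (conj s))) (twistedL M W fun g => conj (φ g)) := by
  refine ⟨fun s _ => meromorphicAt_conj (h.1 _ (Set.mem_univ _)), fun s hs => ?_⟩
  rw [twistedL_conj]
  change conj (f (conj s)) = _
  rw [h.2 _ (by rwa [Complex.conj_re])]

/-- **`L(E ⊗ conj χ, s) = conj L(E ⊗ χ, conj s)`.** -/
theorem refl_ofCurve {W : WeierstrassCurve (𝓞 K)} {s₀ : ℂ} (a : Automorphic M W s₀) :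
    Pool.Agent.Q290.Schur.Refl (TwistData.ofCurve a) := by
  intro χ hχ
  have h1 := continues_conj (cont_spec (a.mero χ hχ))
  exact (cont_spec ⟨_, h1⟩).eventuallyEq h1 (fun _ _ => rfl) s₀

end

end Pool.Agent.Q290.RL
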