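import Mathlib
import Pool.Agent.Q290.Schur.TwReal

/-!
# Real points: poles of L(E/F, s) and zeros of order three of L(E/M, s)

`Pool.Agent.H541R3.ART.Irr G` is the set of irreducible complex characters of the finite group `G`.

Let `E` be an elliptic curve over a number field `K` and `M/K` a Galois extension with group `G` such
that `E` is automorphic over `M`. (If `K` is totally real or CM, every `E/K` has such an `M`:
potential modularity.) By solvable descent `E` is then automorphic over the fixed field `M ^ H` for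
every SOLVABLE subgroup `H` of `G`; for the other subgroups nothing is known. Accordingly
`Pool.Agent.Q7.SZ.TwistData G s₀` is a family of functions with the known formal properties of the
twisted L-functions of `E` near `s₀`: functions `L χ` (for `L(E ⊗ χ, s)`, `χ ∈ Irr G`), meromorphic
and not identically zero near `s₀` (Brauer), and `Lin H ψ` (for `L(E / M ^ H ⊗ ψ, s)`, `ψ` a linear
character of a subgroup `H`) which have no pole at `s₀` if `H` is solvable, and which are the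
products of the `L χ ^ ⟨χ|_H, ψ⟩` (induction). In particular `Lin ⊥ 1` stands for `L(E/M, s)` and
`Lin H 1` for `L(E / M ^ H, s)`. The property `Pool.Agent.Q290.Schur.Refl A` is
`L(E ⊗ χ̄, s) = conj L(E ⊗ χ, conj s)`.

A character `χ` is orthogonal, `Pool.Agent.Q290.Schur.Ort χ`, if it is real and its Frobenius-Schur
indicator `|G|⁻¹ ∑ χ (g ^ 2)` is `1`, and symplectic, `Pool.Agent.Q7.TZ.Sy χ`, if it is real and its
indicator is `-1`. `Pool.Agent.Q290.Schur.Light n χ` says that `n χ = 0`, or that `n χ = 1` and `χ`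
is orthogonal, or that `n χ = -1` and `χ` is symplectic.
-/

set_option autoImplicit false

open Pool.Agent.H541R3.ART Pool.Agent.Q7.TZ Pool.Agent.Q7.SZ Pool.Agent.Q290.Schur ComplexConjugate

/-- Let `G`, an arbitrary finite group, be the Galois group of `M/K`, let `s₀` be a real number, let
`r` be the order of `L(E/M, s)` at `s₀` and `n χ` that of `L(E ⊗ χ, s)`.

(1) For every field `F` between `K` and `M` the function `L(E/F, s)` has at `s₀` no pole of order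
greater than `r - 2`, and no pole at all if `r ≤ 2`; the same holds for its twists by the quadratic
characters of the Galois group of `M/F`. If `ψ` is a linear character with `ψ ^ 2 ≠ 1` and `r ≥ 3`,
then the order `k` of `L(E/F ⊗ ψ, s)` satisfies `2 k² < r (r - 1)`.

(2) With the Frobenius-Schur indicators `ν` and `T = ∑ ν χ n χ`, `2 ∑ (n χ)² ≤ r (r + T)` and
`T ≤ r`. If `r ≥ 3` then either all zeros are those of one `L(E ⊗ μ, s)` with `μ ^ 2 = 1`, or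
`2 - r ≤ n χ ≤ r - 1` for orthogonal `χ`, `1 - r ≤ n χ ≤ r - 2` for symplectic `χ`, and
`2 (n χ)² < r (r - 1)` for all other `χ`.

(3) Let `r = 3`. There is a linear character `ε` of `G` with `ε ^ 2 = 1` such that one of the
following holds. (a) `L(E ⊗ ε, s)` has a zero of order three, and no other `L(E ⊗ χ, s)` has a zero
or a pole at `s₀`. (b) `L(E ⊗ ε, s)` is finite and nonzero at `s₀`, and at most three of the `L(E ⊗ χ, s)` have
a zero or pole at `s₀`: simple zeros for orthogonal `χ`, simple poles for symplectic `χ`.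
(c) `L(E ⊗ ε, s)` has a simple zero and one `L(E ⊗ μ, s)`, `μ ^ 2 = 1`, has a double zero, and there
are no other zeros and poles. (d) `L(E ⊗ ε, s)` has a zero of order one or two, and there is one
exceptional character `χ₀`, orthogonal with a simple pole or symplectic with a simple zero, or
(e) one exceptional pair of complex conjugate characters `χ₀`, both with simple zeros or both with
simple poles, while for all other `χ` there are at most simple zeros, if `χ` is orthogonal, or simple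
poles, if `χ` is symplectic, whose number is at most `4 - n ε` in the case (d), and at most
`3 - n ε` in the case (e). -/
theorem Pool.Agent.Q290.RL.rp_core
    (G : Type) [Group G] [Finite G] (s₀ : ℂ) (hs : conj s₀ = s₀) (A : TwistData G s₀)
    (hA : Refl A) (r : ℕ) (hr : meromorphicOrderAt (A.Lin ⊥ 1) s₀ = (r : WithTop ℤ))
    (n : (G → ℂ) → ℤ)
    (hn : ∀ χ ∈ Irr G, meromorphicOrderAt (A.L χ) s₀ = ((n χ : ℤ) : WithTop ℤ)) :
    (∀ (H : Subgroup G) (ψ : H →* ℂˣ), ∃ k : ℤ,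
      meromorphicOrderAt (A.Lin H ψ) s₀ = (k : WithTop ℤ) ∧ (r ≤ 2 → 0 ≤ k) ∧
      (ψ * ψ = 1 → -((r - 2 : ℕ) : ℤ) ≤ k) ∧
      (ψ * ψ ≠ 1 → 3 ≤ r → 2 * k ^ 2 < r * (r - 1))) ∧
    ((∀ ν : (G → ℂ) → ℤ, (∀ χ ∈ Irr G, ∑ᶠ g, χ (g ^ 2) = ν χ * Nat.card G) →
        2 * ∑ᶠ χ ∈ Irr G, n χ ^ 2 ≤ r * (r + ∑ᶠ χ ∈ Irr G, ν χ * n χ) ∧
        ∑ᶠ χ ∈ Irr G, ν χ * n χ ≤ r) ∧
      (3 ≤ r →
        (∃ μ : G →* ℂˣ, μ * μ = 1 ∧ n (fun g => ((μ g : ℂˣ) : ℂ)) = r ∧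
          ∀ χ ∈ Irr G, χ ≠ (fun g => ((μ g : ℂˣ) : ℂ)) → n χ = 0) ∨
        ∀ χ ∈ Irr G, (Ort χ → 2 - r ≤ n χ ∧ n χ ≤ r - 1) ∧ (Sy χ → 1 - r ≤ n χ ∧ n χ ≤ r - 2) ∧
          ((fun g => χ g⁻¹) ≠ χ → 2 * n χ ^ 2 < r * (r - 1)))) ∧
    (r = 3 → ∃ ε : G →* ℂˣ, ε * ε = 1 ∧
      ((n (fun g => ((ε g : ℂˣ) : ℂ)) = 3 ∧
          ∀ χ ∈ Irr G, χ ≠ (fun g => ((ε g : ℂˣ) : ℂ)) → n χ = 0) ∨
        (n (fun g => ((ε g : ℂˣ) : ℂ)) = 0 ∧ (∀ χ ∈ Irr G, Light n χ) ∧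
          {χ | χ ∈ Irr G ∧ n χ ≠ 0}.ncard ≤ 3) ∨
        (n (fun g => ((ε g : ℂˣ) : ℂ)) = 1 ∧ ∃ μ : G →* ℂˣ, μ ≠ ε ∧ μ * μ = 1 ∧
          n (fun g => ((μ g : ℂˣ) : ℂ)) = 2 ∧
          ∀ χ ∈ Irr G, χ ≠ (fun g => ((ε g : ℂˣ) : ℂ)) → χ ≠ (fun g => ((μ g : ℂˣ) : ℂ)) →
            n χ = 0) ∨
        ((n (fun g => ((ε g : ℂˣ) : ℂ)) = 1 ∨ n (fun g => ((ε g : ℂˣ) : ℂ)) = 2) ∧
          ∃ χ₀ ∈ Irr G, χ₀ ≠ (fun g => ((ε g : ℂˣ) : ℂ)) ∧
            ((Ort χ₀ ∧ n χ₀ = -1) ∨ (Sy χ₀ ∧ n χ₀ = 1)) ∧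
            (∀ χ ∈ Irr G, χ ≠ (fun g => ((ε g : ℂˣ) : ℂ)) → χ ≠ χ₀ → Light n χ) ∧
            n (fun g => ((ε g : ℂˣ) : ℂ)) + {χ | χ ∈ Irr G ∧
              χ ≠ (fun g => ((ε g : ℂˣ) : ℂ)) ∧ χ ≠ χ₀ ∧ n χ ≠ 0}.ncard ≤ 4) ∨
        ((n (fun g => ((ε g : ℂˣ) : ℂ)) = 1 ∨ n (fun g => ((ε g : ℂˣ) : ℂ)) = 2) ∧
          ∃ χ₀ ∈ Irr G, (fun g => χ₀ g⁻¹) ≠ χ₀ ∧ n (fun g => χ₀ g⁻¹) = n χ₀ ∧
            (n χ₀ = 1 ∨ n χ₀ = -1) ∧
            (∀ χ ∈ Irr G, χ ≠ (fun g => ((ε g : ℂˣ) : ℂ)) → χ ≠ χ₀ → χ ≠ (fun g => χ₀ g⁻¹) →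
              Light n χ) ∧
            n (fun g => ((ε g : ℂˣ) : ℂ)) + {χ | χ ∈ Irr G ∧
              χ ≠ (fun g => ((ε g : ℂˣ) : ℂ)) ∧ χ ≠ χ₀ ∧ χ ≠ (fun g => χ₀ g⁻¹) ∧
                n χ ≠ 0}.ncard ≤ 3))) := by
  classical
  have hfin : ∀ f : (G → ℂ) → ℤ, ∑ᶠ χ ∈ Irr G, f χ = ∑ χ ∈ irrF G, f χ := fun f =>
    finsum_mem_eq_finite_toFinset_sum f (irr_finite (G := G))
  have hno : ∀ χ ∈ Irr G, n χ = A.ord χ := by
    intro χ hχ
    have h1 := A.coe_ord hχ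
    rw [hn χ hχ] at h1
    exact (WithTop.coe_injective h1).symm
  have hth : (theta n : G → ℂ) = theta A.ord := by
    funext g
    unfold theta
    exact Finset.sum_congr rfl fun χ hχ => by rw [hno χ (mem_irrF.mp hχ)]
  have hθ : Pool.Agent.H302R3.IsSolHeilbronn (theta n : G → ℂ) := by
    rw [hth]; exact A.isSol
  have h1 : (theta n : G → ℂ) 1 = r := by
    rw [hth]; exact A.theta_one hr
  have hdual : ∀ χ ∈ Irr G, A.ord (fun g => χ g⁻¹) = A.ord χ := fun χ hχ => refl_ord hs hA hχ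
  have hreal : ∀ χ ∈ Irr G, n (fun g => χ g⁻¹) = n χ := by
    intro χ hχ
    rw [hno χ hχ, hno _ (Pool.Agent.Q7.DB.irr_inv hχ)]
    exact hdual χ hχ
  have hinv : ∀ g : G, theta n g⁻¹ = theta n g := theta_inv_of n hreal
  refine ⟨fun H ψ => inter_fields A hdual hr H ψ, ⟨fun ν hν => ?_, fun h3 => ?_⟩, fun h3 => ?_⟩
  · rw [hfin, hfin]
    obtain ⟨ha, hb, -⟩ := real_ineqS n hθ h1 hreal ν hν
    exact ⟨ha, hb⟩
  · exact bounds n hθ h1 hinv h3
  · subst h3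
    obtain ⟨ε, -, h2, h4⟩ := three_class n hθ (by rw [h1]; norm_num) hinv
    exact ⟨ε, h2, h4⟩
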